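import Pool.Agent.H295R3.W.StmtsB

set_option autoImplicit false

/-! Task Res of project H295-W2 (helper295). -/

open Finset Filter Topology Complex

namespace Pool.Agent.H142R3.W

open Pool.Agent.H295R3.W

/-- cast to complex valued arithmetic functions -/
noncomputable def cst (h : ArithmeticFunction ℝ) : ArithmeticFunction ℂ :=
  ⟨fun n => (h n : ℂ), by simp⟩

theorem cst_apply (h : ArithmeticFunction ℝ) (n : ℕ) : cst h n = (h n : ℂ) := rfl

theorem cst_mul (a b : ArithmeticFunction ℝ) : cst (a * b) = cst a * cst b := by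
  ext n
  rw [cst_apply, ArithmeticFunction.mul_apply, ArithmeticFunction.mul_apply]
  push_cast
  rfl

theorem cst_zeta : cst ((ArithmeticFunction.zeta : ArithmeticFunction ℕ) : ArithmeticFunction ℝ) =
    ((ArithmeticFunction.zeta : ArithmeticFunction ℕ) : ArithmeticFunction ℂ) := by
  ext n
  rw [cst_apply]
  simp only [ArithmeticFunction.natCoe_apply]
  push_cast
  rfl

theorem fo_eq : cst fo = ((ArithmeticFunction.moebius : ArithmeticFunction ℤ) : ArithmeticFunction ℂ) *
    (((ArithmeticFunction.moebius : ArithmeticFunction ℤ) : ArithmeticFunction ℂ) * cst g) := by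
  have h1 : cst g = ((ArithmeticFunction.zeta : ArithmeticFunction ℕ) : ArithmeticFunction ℂ) *
      ((ArithmeticFunction.zeta : ArithmeticFunction ℕ) : ArithmeticFunction ℂ) * cst fo := by
    unfold g
    rw [cst_mul, cst_mul, cst_zeta]
  have h2 := @ArithmeticFunction.coe_moebius_mul_coe_zeta ℂ _
  rw [h1, mul_assoc, ← mul_assoc _ _ (_ * cst fo), h2, one_mul, ← mul_assoc, h2, one_mul]

theorem summable_g (hG : TaskG) (s : ℂ) (hs : 3 / 4 ≤ s.re) :
    LSeriesSummable (fun n => cst g n) s := by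
  refine Summable.of_norm_bounded (g := fun n : ℕ => |g n| / (n : ℝ) ^ (3 / 4 : ℝ)) hG ?_
  intro n
  rw [LSeries.norm_term_eq]
  split_ifs with h
  · positivity
  · rw [cst_apply, Complex.norm_real, Real.norm_eq_abs]
    have hn : (1 : ℝ) ≤ n := by exact_mod_cast Nat.one_le_iff_ne_zero.2 h
    gcongr

theorem dirg_eq (s : ℂ) : Dirg s = LSeries (fun n => cst g n) s := by
  unfold Dirg LSeries
  refine tsum_congr fun n => ?_
  rw [LSeries.term_def]
  split_ifs with h
  · subst h
    simp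
  · rw [cst_apply, cpow_neg, div_eq_mul_inv]

theorem mu_eq : (fun n : ℕ =>
      ((ArithmeticFunction.moebius : ArithmeticFunction ℤ) : ArithmeticFunction ℂ) n) =
      fun n : ℕ => ((ArithmeticFunction.moebius n : ℤ) : ℂ) := by
  funext n
  rw [ArithmeticFunction.intCoe_apply]

theorem LS_fo (hG : TaskG) (s : ℂ) (hs : 1 < s.re) :
    LSeriesSummable (fun n => cst fo n) s ∧
      LSeries (fun n => cst fo n) s = Dirg s / riemannZeta s ^ 2 := by
  have hmu : LSeriesSummable (fun n =>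
      ((ArithmeticFunction.moebius : ArithmeticFunction ℤ) : ArithmeticFunction ℂ) n) s := by
    rw [mu_eq]
    exact ArithmeticFunction.LSeriesSummable_moebius_iff.2 hs
  have hg := summable_g hG s (by linarith)
  have h1 := ArithmeticFunction.LSeriesSummable_mul hmu hg
  have h2 := ArithmeticFunction.LSeriesSummable_mul hmu h1
  have h3 := ArithmeticFunction.LSeries_mul' hmu hg
  have h4 := ArithmeticFunction.LSeries_mul' hmu h1
  rw [← fo_eq] at h2 h4
  refine ⟨h2, ?_⟩
  rw [h4, h3, dirg_eq]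
  have h5 := ArithmeticFunction.LSeries_zeta_mul_Lseries_moebius hs
  rw [ArithmeticFunction.LSeries_zeta_eq_riemannZeta hs] at h5
  have hz : riemannZeta s ≠ 0 := riemannZeta_ne_zero_of_one_le_re hs.le
  have h6 : LSeries (fun n =>
      ((ArithmeticFunction.moebius : ArithmeticFunction ℤ) : ArithmeticFunction ℂ) n) s =
      (riemannZeta s)⁻¹ := by
    rw [mu_eq]
    exact eq_inv_of_mul_eq_one_right h5
  rw [h6]
  field_simp

/-- decomposition of `n` as a power of two times an odd number -/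
def psi (n : ℕ) : ℕ × ℕ := (n.factorization 2, n / 2 ^ n.factorization 2)

theorem psi_inj : Function.Injective psi := by
  intro a b h
  unfold psi at h
  have h1 := (Prod.mk.inj h).1
  have h2 := (Prod.mk.inj h).2
  have h3 := Nat.ordProj_mul_ordCompl_eq_self a 2
  have h4 := Nat.ordProj_mul_ordCompl_eq_self b 2
  rw [← h3, ← h4, h2, h1]

theorem f_two_pow (k m : ℕ) (hm : m ≠ 0) : f (2 ^ k * m) = (-2) ^ k * f m := by
  unfold f
  rw [ArithmeticFunction.cardFactors_mul (by positivity) hm,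
    ArithmeticFunction.cardFactors_pow, ArithmeticFunction.cardFactors_apply_prime Nat.prime_two,
    mul_one, pow_add]

theorem two_pow_cpow (k : ℕ) (s : ℂ) : (((2 : ℕ) ^ k : ℕ) : ℂ) ^ s = ((2 : ℂ) ^ s) ^ k := by
  induction k with
  | zero => simp
  | succ k ih =>
    rw [pow_succ, Nat.cast_mul, Complex.natCast_mul_natCast_cpow, ih, pow_succ]
    norm_num

theorem main_dir (hG : TaskG) (s : ℂ) (hs : 1 < s.re) :
    Dir s = (1 + 2 * (2 : ℂ) ^ (-s))⁻¹ * (Dirg s / riemannZeta s ^ 2) := by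
  have hs0 : s ≠ 0 := by
    intro h
    rw [h] at hs
    simp at hs
    linarith
  obtain ⟨hsum, hval⟩ := LS_fo hG s hs
  set r : ℂ := -2 * (2 : ℂ) ^ (-s) with hr
  have hrn : ‖r‖ < 1 := by
    rw [hr, norm_mul, norm_neg]
    have h1 : ‖(2 : ℂ) ^ (-s)‖ = (2 : ℝ) ^ (-s.re) := by
      have := Complex.norm_natCast_cpow_of_pos (n := 2) (by norm_num) (-s)
      simpa using this
    rw [h1]
    have h2 : ‖(2 : ℂ)‖ = (2 : ℝ) ^ (1 : ℝ) := by simp
    rw [h2, ← Real.rpow_add (by norm_num)]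
    exact Real.rpow_lt_one_of_one_lt_of_neg (by norm_num) (by linarith)
  have hb : (fun m => LSeries.term (fun n => cst fo n) s m) =
      fun m : ℕ => (cst fo m) * (m : ℂ) ^ (-s) := by
    funext m
    rw [LSeries.term_def]
    split_ifs with h
    · subst h; simp
    · rw [cpow_neg, div_eq_mul_inv]
  have hbs : Summable fun m : ℕ => (cst fo m) * (m : ℂ) ^ (-s) := by
    rw [← hb]; exact hsum
  have has : Summable fun k : ℕ => r ^ k := summable_geometric_of_norm_lt_one hrn
  have hprod := tsum_mul_tsum_of_summable_norm has.norm hbs.norm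
  have hterm : ∀ n : ℕ, (f n : ℂ) * ((n : ℂ) ^ (-s)) =
      r ^ (psi n).1 * ((cst fo (psi n).2) * ((psi n).2 : ℂ) ^ (-s)) := by
    intro n
    by_cases hn : n = 0
    · subst hn
      have h1 : ((0 : ℕ) : ℂ) ^ (-s) = 0 := by
        rw [Nat.cast_zero, zero_cpow (neg_ne_zero.2 hs0)]
      rw [h1]
      simp [psi]
    · have hm0 : n / 2 ^ n.factorization 2 ≠ 0 := by
        intro h
        have := Nat.ordProj_mul_ordCompl_eq_self n 2
        rw [h, mul_zero] at this
        exact hn this.symm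
      have hodd : (n / 2 ^ n.factorization 2) % 2 = 1 := by
        have h1 := Nat.coprime_ordCompl Nat.prime_two hn
        by_contra hc
        have h2 : 2 ∣ n / 2 ^ n.factorization 2 := by omega
        have := Nat.Coprime.eq_one_of_dvd h1 h2
        omega
      have hfo : fo (n / 2 ^ n.factorization 2) = f (n / 2 ^ n.factorization 2) := by
        show (if (n / 2 ^ n.factorization 2) % 2 = 1 then f (n / 2 ^ n.factorization 2) else 0) = _
        rw [if_pos hodd]
      have h1 := Nat.ordProj_mul_ordCompl_eq_self n 2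
      have h2 : f n = (-2) ^ (n.factorization 2) * f (n / 2 ^ n.factorization 2) := by
        conv_lhs => rw [← h1]
        exact f_two_pow _ _ hm0
      have h3 : ((n : ℕ) : ℂ) ^ (-s) = ((2 : ℂ) ^ (-s)) ^ (n.factorization 2) *
          ((n / 2 ^ n.factorization 2 : ℕ) : ℂ) ^ (-s) := by
        conv_lhs => rw [← h1]
        rw [Nat.cast_mul, Complex.natCast_mul_natCast_cpow, two_pow_cpow]
      rw [h2, h3]
      simp only [psi]
      rw [cst_apply, hfo, hr, mul_pow]
      push_cast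
      ring
  have hsupp : Function.support (fun p : ℕ × ℕ => r ^ p.1 * ((cst fo p.2) * (p.2 : ℂ) ^ (-s))) ⊆
      Set.range psi := by
    rintro ⟨k, m⟩ hp
    rw [Function.mem_support] at hp
    have hm : m % 2 = 1 := by
      by_contra hc
      apply hp
      have h1 : fo m = 0 := by
        show (if m % 2 = 1 then f m else 0) = 0
        rw [if_neg hc]
      simp only
      rw [cst_apply, h1]
      simp
    refine ⟨2 ^ k * m, ?_⟩
    have hm0 : m ≠ 0 := by
      rintro rfl; omega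
    have h2 : (2 ^ k * m).factorization 2 = k := by
      rw [Nat.factorization_mul (by positivity) hm0, Nat.factorization_pow]
      have h3 : m.factorization 2 = 0 := by
        apply Nat.factorization_eq_zero_of_not_dvd
        omega
      simp [h3, Nat.Prime.factorization_self Nat.prime_two]
    unfold psi
    rw [h2, Nat.mul_div_cancel_left _ (by positivity)]
  have h7 := psi_inj.tsum_eq hsupp
  have h8 : Dir s = ∑' p : ℕ × ℕ, r ^ p.1 * ((cst fo p.2) * (p.2 : ℂ) ^ (-s)) := by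
    rw [← h7]
    unfold Dir
    exact tsum_congr hterm
  rw [h8, ← hprod, tsum_geometric_of_norm_lt_one hrn, ← hval]
  congr 1
  · rw [hr]; congr 1; ring
  · unfold LSeries
    rw [hb]

/-- `2 ^ (-s)` at `s = σ + i ω_k` -/
theorem two_cpow (σ : ℝ) (k : ℕ) :
    2 * (2 : ℂ) ^ (-((σ : ℂ) + om k * I)) = -(((2 : ℝ) ^ (1 - σ) : ℝ) : ℂ) := by
  have hl : (Real.log 2 : ℝ) ≠ 0 := (Real.log_pos (by norm_num)).ne'
  have h2 : (2 : ℂ) ≠ 0 := two_ne_zero
  have hlog : Complex.log 2 = ((Real.log 2 : ℝ) : ℂ) := by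
    rw [Complex.ofReal_log (by norm_num)]; norm_num
  rw [cpow_def_of_ne_zero h2, hlog]
  have e1 : ((Real.log 2 : ℝ) : ℂ) * (-((σ : ℂ) + om k * I)) =
      ((Real.log 2 * (-σ) : ℝ) : ℂ) + (-((k : ℂ) * (2 * Real.pi * I)) + -(Real.pi * I)) := by
    unfold om
    have hl' : ((Real.log 2 : ℝ) : ℂ) ≠ 0 := by exact_mod_cast hl
    push_cast
    field_simp
    ring
  rw [e1, Complex.exp_add, Complex.exp_add, Complex.exp_neg ((k : ℂ) * (2 * Real.pi * I)),
    Complex.exp_nat_mul_two_pi_mul_I, Complex.exp_neg, Complex.exp_pi_mul_I, ← Complex.ofReal_exp]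
  have e2 : (2 : ℝ) ^ (1 - σ) = 2 * Real.exp (Real.log 2 * (-σ)) := by
    rw [Real.rpow_def_of_pos (by norm_num), mul_sub, mul_one, Real.exp_sub,
      Real.exp_log (by norm_num)]
    rw [mul_neg, Real.exp_neg]
    rfl
  rw [e2]
  push_cast
  norm_num

theorem lim_factor : Tendsto (fun σ : ℝ => (σ - 1) / (1 - (2 : ℝ) ^ (1 - σ))) (𝓝[>] 1)
    (𝓝 (1 / Real.log 2)) := by
  have hl : (Real.log 2 : ℝ) ≠ 0 := (Real.log_pos (by norm_num)).ne'
  have hd : HasDerivAt (fun σ : ℝ => 1 - (2 : ℝ) ^ (1 - σ)) (Real.log 2) 1 := by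
    have h1 : HasDerivAt (fun σ : ℝ => 1 - σ) (-1) 1 := by
      simpa using (hasDerivAt_id (1 : ℝ)).const_sub 1
    have h2 := (h1.const_rpow (a := 2) (by norm_num)).const_sub 1
    exact h2.congr_deriv (by simp)
  have h3 := hd.tendsto_slope
  have h4 : Tendsto (fun σ : ℝ => (slope (fun σ : ℝ => 1 - (2 : ℝ) ^ (1 - σ)) 1 σ)⁻¹) (𝓝[≠] 1)
      (𝓝 (Real.log 2)⁻¹) := h3.inv₀ hl
  have h5 : Tendsto (fun σ : ℝ => (slope (fun σ : ℝ => 1 - (2 : ℝ) ^ (1 - σ)) 1 σ)⁻¹) (𝓝[>] 1)
      (𝓝 (Real.log 2)⁻¹) :=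
    h4.mono_left (nhdsWithin_mono _ (fun x hx => ne_of_gt hx))
  rw [one_div]
  refine h5.congr ?_
  intro σ
  rw [slope_def_field, inv_div, sub_self (1:ℝ), Real.rpow_zero, sub_self (1:ℝ), sub_zero]

theorem taskRes : Pool.Agent.H295R3.W.TaskRes := by
  intro hG k
  have hl : (Real.log 2 : ℝ) ≠ 0 := (Real.log_pos (by norm_num)).ne'
  have hpi := Real.pi_pos
  have hlpos : 0 < Real.log 2 := Real.log_pos (by norm_num)
  have hom : 0 < om k := by
    unfold om; positivity
  have hsk1 : sk k ≠ 1 := by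
    intro h
    have := congrArg Complex.im h
    unfold sk at this
    simp at this
    linarith
  have hsk0 : sk k ≠ 0 := by
    intro h
    have := congrArg Complex.im h
    unfold sk at this
    simp at this
    linarith
  have hskre : (sk k).re = 1 := by unfold sk; simp
  have hz : riemannZeta (sk k) ≠ 0 := riemannZeta_ne_zero_of_one_le_re hskre.ge
  -- s(σ) → s_k
  have hs : Tendsto (fun σ : ℝ => ((σ : ℂ) + om k * I)) (𝓝[>] 1) (𝓝 (sk k)) := by
    have : Tendsto (fun σ : ℝ => ((σ : ℂ) + om k * I)) (𝓝 1) (𝓝 (((1 : ℝ) : ℂ) + om k * I)) :=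
      (Complex.continuous_ofReal.tendsto 1).add_const _
    have h2 : ((1 : ℝ) : ℂ) + om k * I = sk k := by unfold sk; push_cast; rfl
    rw [h2] at this
    exact this.mono_left nhdsWithin_le_nhds
  have hzeta : Tendsto (fun σ : ℝ => riemannZeta ((σ : ℂ) + om k * I)) (𝓝[>] 1)
      (𝓝 (riemannZeta (sk k))) :=
    ((differentiableAt_riemannZeta hsk1).continuousAt.tendsto).comp hs
  have hdirg : Tendsto (fun σ : ℝ => Dirg ((σ : ℂ) + om k * I)) (𝓝[>] 1) (𝓝 (Dirg (sk k))) := by
    unfold Dirg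
    apply tendsto_tsum_of_dominated_convergence (bound := fun n : ℕ => |g n| / (n : ℝ) ^ (3 / 4 : ℝ)) hG
    · intro n
      by_cases hn : n = 0
      · subst hn
        simp
      · have hn0 : (n : ℂ) ≠ 0 := by exact_mod_cast hn
        have h1 : Continuous fun z : ℂ => (g n : ℂ) * ((n : ℂ) ^ (-z)) := by
          refine continuous_const.mul ?_
          exact (continuous_neg).const_cpow (Or.inl hn0)
        exact (h1.tendsto (sk k)).comp hs
    · filter_upwards [self_mem_nhdsWithin] with σ hσ n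
      by_cases hn : n = 0
      · subst hn
        simp
      · have hn1 : (1 : ℝ) ≤ n := by exact_mod_cast Nat.one_le_iff_ne_zero.2 hn
        have hσ1 : (1 : ℝ) < σ := hσ
        rw [norm_mul, Complex.norm_real, Real.norm_eq_abs,
          Complex.norm_natCast_cpow_of_pos (Nat.pos_of_ne_zero hn), div_eq_mul_inv,
          ← Real.rpow_neg (by positivity)]
        gcongr
        simp
        linarith
  have hfac : Tendsto (fun σ : ℝ => (((σ - 1) / (1 - (2 : ℝ) ^ (1 - σ)) : ℝ) : ℂ)) (𝓝[>] 1)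
      (𝓝 ((1 / Real.log 2 : ℝ) : ℂ)) :=
    (Complex.continuous_ofReal.tendsto _).comp lim_factor
  have hlim : Tendsto (fun σ : ℝ => (((σ - 1) / (1 - (2 : ℝ) ^ (1 - σ)) : ℝ) : ℂ) *
      (Dirg ((σ : ℂ) + om k * I) / (riemannZeta ((σ : ℂ) + om k * I)) ^ 2) /
        ((σ : ℂ) + om k * I)) (𝓝[>] 1)
      (𝓝 (((1 / Real.log 2 : ℝ) : ℂ) * (Dirg (sk k) / (riemannZeta (sk k)) ^ 2) / sk k)) :=
    (hfac.mul (hdirg.div (hzeta.pow 2) (pow_ne_zero 2 hz))).div hs hsk0
  have hck : ck k = ((1 / Real.log 2 : ℝ) : ℂ) * (Dirg (sk k) / (riemannZeta (sk k)) ^ 2) / sk k := by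
    unfold ck
    have hl' : ((Real.log 2 : ℝ) : ℂ) ≠ 0 := by exact_mod_cast hl
    push_cast
    field_simp
  rw [hck]
  refine hlim.congr' ?_
  filter_upwards [self_mem_nhdsWithin] with σ hσ
  have hσ1 : (1 : ℝ) < σ := hσ
  have hre : 1 < ((σ : ℂ) + om k * I).re := by simpa using hσ1
  rw [main_dir hG _ hre, two_cpow]
  have h9 : (1 : ℝ) - (2 : ℝ) ^ (1 - σ) ≠ 0 := by
    have : (2 : ℝ) ^ (1 - σ) < 1 :=
      Real.rpow_lt_one_of_one_lt_of_neg (by norm_num) (by linarith)
    linarith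
  have h10 : (1 : ℂ) + -(((2 : ℝ) ^ (1 - σ) : ℝ) : ℂ) = ((1 - (2 : ℝ) ^ (1 - σ) : ℝ) : ℂ) := by
    push_cast; ring
  rw [h10]
  have h11 : ((1 - (2 : ℝ) ^ (1 - σ) : ℝ) : ℂ) ≠ 0 := by exact_mod_cast h9
  rw [Complex.ofReal_div]
  push_cast
  push_cast at h11
  field_simp

end Pool.Agent.H142R3.W
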